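import Pool.Agent.Helper19.TGX.Goals

/-!
# MP_a41896_nt, packet TGX-NRM: normalisation of an additive formula
-/

set_option autoImplicit false

open Polynomial

namespace Pool.Agent.Helper44.TGX.NRM

open WeierstrassCurve
open Pool.Agent.Helper29.BL Pool.Agent.Helper42.SG
open Pool.Agent.Helper60.T3 (WL zd IP)
open Pool.Agent.Helper92.TG (mp)
open Pool.Agent.Helper60.TGX (Val AddF)

noncomputable section

theorem val_iff {k F : Type} [Field k] [Field F] [Algebra k F] {W W' : Affine k}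
    {A B C₀ E A₁ B₁ C₁ E₁ U V : k[X]} (hU : U ≠ 0) (hV : V ≠ 0) (hA : A = U * A₁)
    (hB : B = U * B₁) (hC : C₀ = V * C₁) (hE : E = V * E₁) (P : (WL F W).Point)
    (R : (WL F W').Point) (hP : Transcendental k (xc P)) :
    Val A B C₀ E P R ↔ Val A₁ B₁ C₁ E₁ P R := by
  have hu : aeval (xc P) U ≠ 0 := fun h => hU (transcendental_iff.1 hP U h)
  have hv : aeval (xc P) V ≠ 0 := fun h => hV (transcendental_iff.1 hP V h)
  unfold Val
  refine and_congr Iff.rfl (and_congr ?_ ?_)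
  · rw [hA, hB, map_mul, map_mul]
    constructor
    · intro h
      have h2 : aeval (xc P) U * (xc R * aeval (xc P) B₁) =
          aeval (xc P) U * aeval (xc P) A₁ := by linear_combination h
      exact mul_left_cancel₀ hu h2
    · intro h
      linear_combination aeval (xc P) U * h
  · rw [hC, hE, map_mul, map_mul]
    constructor
    · intro h
      have h2 : aeval (xc P) V * (ps R * aeval (xc P) E₁) =
          aeval (xc P) V * (aeval (xc P) C₁ * ps P) := by linear_combination h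
      exact mul_left_cancel₀ hv h2
    · intro h
      linear_combination aeval (xc P) V * h

theorem addF_of {k : Type} [Field k] [CharZero k] {W W' : Affine k}
    (hIN2 : Pool.Agent.Helper19.TGX.IN2) (hW : W.IsElliptic)
    {A B C₀ E A₁ B₁ C₁ E₁ U V : k[X]} (hU : U ≠ 0) (hV : V ≠ 0) (hA : A = U * A₁)
    (hB : B = U * B₁) (hC : C₀ = V * C₁) (hE : E = V * E₁) (h : AddF W W' A B C₀ E) :
    AddF W W' A₁ B₁ C₁ E₁ where
  cop := by
    have h1 := h.cop
    rw [hA, hB] at h1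
    exact h1.of_mul_left_right.of_mul_right_right
  hB := by
    rintro rfl
    exact h.hB (by rw [hB, mul_zero])
  hE := by
    rintro rfl
    exact h.hE (by rw [hE, mul_zero])
  nc := by
    intro h1
    refine h.nc ?_
    have h2 : derivative A * B - A * derivative B =
        U ^ 2 * (derivative A₁ * B₁ - A₁ * derivative B₁) := by
      rw [hA, hB, derivative_mul, derivative_mul]
      ring
    rw [h2, h1, mul_zero]
  ex := by
    intro F _ _ _ P hP
    obtain ⟨R, hR⟩ := h.ex F P hP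
    exact ⟨R, (val_iff hU hV hA hB hC hE P R hP).1 hR⟩
  add := by
    intro F _ _ _ P Q R R' R'' hPQ h1 h2 h3
    obtain ⟨t1, t2, t3, -⟩ := hIN2 k W hW F P Q hPQ
    exact h.add F P Q R R' R'' hPQ ((val_iff hU hV hA hB hC hE P R t1).2 h1)
      ((val_iff hU hV hA hB hC hE Q R' t2).2 h2)
      ((val_iff hU hV hA hB hC hE (P + Q) R'' t3).2 h3)

theorem t (hIN2 : Pool.Agent.Helper19.TGX.IN2) : Pool.Agent.Helper19.TGX.NRM := by
  classical
  intro k _ _ W W' hW hW' A B C₀ E h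
  set b : k := B.leadingCoeff with hb
  have hb0 : b ≠ 0 := leadingCoeff_ne_zero.2 h.hB
  have hd0 : EuclideanDomain.gcd C₀ E ≠ 0 := by
    intro h0
    exact h.hE (EuclideanDomain.gcd_eq_zero_iff.1 h0).2
  obtain ⟨Cq, hCq⟩ := EuclideanDomain.gcd_dvd_left C₀ E
  obtain ⟨Eq, hEq⟩ := EuclideanDomain.gcd_dvd_right C₀ E
  set d : k[X] := EuclideanDomain.gcd C₀ E with hd
  have hcop : IsCoprime Cq Eq := by
    have h1 := EuclideanDomain.gcd_eq_gcd_ab C₀ E
    rw [← hd] at h1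
    refine ⟨EuclideanDomain.gcdA C₀ E, EuclideanDomain.gcdB C₀ E, ?_⟩
    have h2 : d * (EuclideanDomain.gcdA C₀ E * Cq + EuclideanDomain.gcdB C₀ E * Eq) = d * 1 := by
      have h3 : d * (EuclideanDomain.gcdA C₀ E * Cq + EuclideanDomain.gcdB C₀ E * Eq) =
          (d * Cq) * EuclideanDomain.gcdA C₀ E + (d * Eq) * EuclideanDomain.gcdB C₀ E := by ring
      rw [h3, ← hCq, ← hEq, mul_one]
      exact h1.symm
    exact mul_left_cancel₀ hd0 h2
  have hEq0 : Eq ≠ 0 := by
    rintro rfl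
    exact h.hE (by rw [hEq, mul_zero])
  set e : k := Eq.leadingCoeff with he
  have he0 : e ≠ 0 := leadingCoeff_ne_zero.2 hEq0
  have hCb : (C b * C b⁻¹ : k[X]) = 1 := by rw [← C_mul, mul_inv_cancel₀ hb0, C_1]
  have hCe : (C e * C e⁻¹ : k[X]) = 1 := by rw [← C_mul, mul_inv_cancel₀ he0, C_1]
  have hA1 : A = C b * (C b⁻¹ * A) := by rw [← mul_assoc, hCb, one_mul]
  have hB1 : B = C b * (C b⁻¹ * B) := by rw [← mul_assoc, hCb, one_mul]
  have hC1 : C₀ = (d * C e) * (C e⁻¹ * Cq) := by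
    have : (d * C e) * (C e⁻¹ * Cq) = d * ((C e * C e⁻¹) * Cq) := by ring
    rw [this, hCe, one_mul]
    exact hCq
  have hE1 : E = (d * C e) * (C e⁻¹ * Eq) := by
    have : (d * C e) * (C e⁻¹ * Eq) = d * ((C e * C e⁻¹) * Eq) := by ring
    rw [this, hCe, one_mul]
    exact hEq
  refine ⟨C b⁻¹ * A, C b⁻¹ * B, C e⁻¹ * Cq, C e⁻¹ * Eq,
    addF_of hIN2 hW (C_ne_zero.2 hb0) (mul_ne_zero hd0 (C_ne_zero.2 he0)) hA1 hB1 hC1 hE1 h,
    ?_, ?_, ?_, ?_, ?_⟩
  · rw [Monic, leadingCoeff_mul, leadingCoeff_C, ← hb, inv_mul_cancel₀ hb0]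
  · rw [Monic, leadingCoeff_mul, leadingCoeff_C, ← he, inv_mul_cancel₀ he0]
  · have hu : IsUnit (C e⁻¹ : k[X]) := isUnit_C.2 (inv_ne_zero he0).isUnit
    exact (isCoprime_mul_unit_left hu Cq Eq).2 hcop
  · ring
  · have h1 : C₀ * (C e⁻¹ * Eq) = d * Cq * (C e⁻¹ * Eq) := by rw [← hCq]
    have h2 : C e⁻¹ * Cq * E = C e⁻¹ * Cq * (d * Eq) := by rw [← hEq]
    rw [h1, h2]
    ring

end

end Pool.Agent.Helper44.TGX.NRM
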